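import Mathlib

namespace Pool.Agent.Results.MP_62448f_co.LargeN

open Finset Classical

def o (p q u : ℝ × ℝ) : ℝ := (q.1 - p.1) * (u.2 - p.2) - (q.2 - p.2) * (u.1 - p.1)

lemma col {p q u : ℝ × ℝ} (h : p ≠ q) (ho : o p q u = 0) : Collinear ℝ {p, q, u} := by
  rw [collinear_iff_of_mem (p₀ := p) (by simp)]
  refine ⟨q - p, ?_⟩
  have hr : ∃ r : ℝ, u = r • (q - p) +ᵥ p := by
    unfold o at ho
    by_cases h1 : q.1 - p.1 = 0
    · have h2 : q.2 - p.2 ≠ 0 := fun h2 => h (Prod.ext (by linarith) (by linarith))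
      refine ⟨(u.2 - p.2) / (q.2 - p.2), Prod.ext ?_ ?_⟩
      · rw [h1] at ho
        have : u.1 - p.1 = 0 := by
          have : (q.2 - p.2) * (u.1 - p.1) = 0 := by linarith
          exact (mul_eq_zero.1 this).resolve_left h2
        simp [h1]; linarith
      · simp; field_simp; ring
    · refine ⟨(u.1 - p.1) / (q.1 - p.1), Prod.ext ?_ ?_⟩
      · simp; field_simp; ring
      · simp; field_simp; linarith
  intro x hx
  simp only [Set.mem_insert_iff, Set.mem_singleton_iff] at hx
  rcases hx with rfl | rfl | rfl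
  · exact ⟨0, by simp⟩
  · exact ⟨1, by simp⟩
  · exact hr

noncomputable def ind (A : Prop) : ℝ := if A then 1 else 0

lemma ind_nonneg (A : Prop) : 0 ≤ ind A := by unfold ind; split_ifs <;> norm_num
lemma ind_le (A : Prop) : ind A ≤ 1 := by unfold ind; split_ifs <;> norm_num
lemma ind_pos {A : Prop} (h : A) : ind A = 1 := if_pos h
lemma ind_neg {A : Prop} (h : ¬ A) : ind A = 0 := if_neg h

variable {n : ℕ} (P : Fin n → ℝ × ℝ)

noncomputable def s (p q u v : Fin n) : ℝ := ind (o (P p) (P q) (P u) * o (P p) (P q) (P v) < 0)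

lemma s_symm (p q u v : Fin n) : s P p q u v = s P q p u v := by
  unfold s
  congr 2
  unfold o; ring

/-- Among the points of `W`, many lines through `p` and a point of `W` separate `u` from another. -/
lemma tri (gen : ∀ i j l, i ≠ j → i ≠ l → j ≠ l → o (P i) (P j) (P l) ≠ 0) {p u : Fin n} (hpu : p ≠ u)
    (W : Finset (Fin n)) (hp : p ∉ W) (hu : u ∉ W) :
    (W.card : ℝ) * (W.card - 2) ≤ 4 * ∑ q ∈ W, ∑ v ∈ W, s P p q u v := by
  set x : Fin n → ℝ := fun q => ind (0 < o (P p) (P u) (P q)) with hx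
  have key : ∀ q ∈ W, ∀ v ∈ W, x q * x v + (1 - x q) * (1 - x v) - (if q = v then 1 else 0) ≤
      s P p q u v + s P p v u q := by
    intro q hq v hv
    have a0 : o (P p) (P u) (P q) ≠ 0 := gen _ _ _ hpu (fun h => hp (h ▸ hq)) (fun h => hu (h ▸ hq))
    have b0 : o (P p) (P u) (P v) ≠ 0 := gen _ _ _ hpu (fun h => hp (h ▸ hv)) (fun h => hu (h ▸ hv))
    have e1 : o (P p) (P q) (P u) = - o (P p) (P u) (P q) := by unfold o; ring
    have e2 : o (P p) (P v) (P u) = - o (P p) (P u) (P v) := by unfold o; ring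
    have e3 : o (P p) (P v) (P q) = - o (P p) (P q) (P v) := by unfold o; ring
    have n1 := ind_nonneg (o (P p) (P q) (P u) * o (P p) (P q) (P v) < 0)
    have n2 := ind_nonneg (o (P p) (P v) (P u) * o (P p) (P v) (P q) < 0)
    unfold s
    by_cases hqv : q = v
    · subst hqv
      simp only [hx, if_true]
      by_cases h : 0 < o (P p) (P u) (P q)
      · rw [ind_pos h]; linarith
      · rw [ind_neg h]; linarith
    have c0 : o (P p) (P q) (P v) ≠ 0 := gen _ _ _ (fun h => hp (h ▸ hq)) (fun h => hp (h ▸ hv)) hqv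
    simp only [hx, if_neg hqv]
    rcases lt_or_gt_of_ne a0 with a | a <;> rcases lt_or_gt_of_ne b0 with b | b
    · rw [ind_neg a.not_gt, ind_neg b.not_gt]
      rcases lt_or_gt_of_ne c0 with c | c
      · rw [ind_pos (A := o (P p) (P q) (P u) * o (P p) (P q) (P v) < 0) (by rw [e1]; nlinarith)]
        linarith
      · rw [ind_pos (A := o (P p) (P v) (P u) * o (P p) (P v) (P q) < 0) (by rw [e2, e3]; nlinarith)]
        linarith
    · rw [ind_neg a.not_gt, ind_pos b]; linarith
    · rw [ind_pos a, ind_neg b.not_gt]; linarith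
    · rw [ind_pos a, ind_pos b]
      rcases lt_or_gt_of_ne c0 with c | c
      · rw [ind_pos (A := o (P p) (P v) (P u) * o (P p) (P v) (P q) < 0) (by rw [e2, e3]; nlinarith)]
        linarith
      · rw [ind_pos (A := o (P p) (P q) (P u) * o (P p) (P q) (P v) < 0) (by rw [e1]; nlinarith)]
        linarith
  have h1 := sum_le_sum fun q hq => sum_le_sum fun v hv => key q hq v hv
  have h2 : ∑ q ∈ W, ∑ v ∈ W, (s P p q u v + s P p v u q) = 2 * ∑ q ∈ W, ∑ v ∈ W, s P p q u v := by
    simp only [sum_add_distrib]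
    rw [sum_comm (f := fun q v => s P p v u q)]; ring
  have h3 : ∑ q ∈ W, ∑ v ∈ W, (x q * x v + (1 - x q) * (1 - x v) - (if q = v then 1 else 0)) =
      (∑ q ∈ W, x q) ^ 2 + (W.card - ∑ q ∈ W, x q) ^ 2 - W.card := by
    have a : (W.card : ℝ) - ∑ q ∈ W, x q = ∑ q ∈ W, (1 - x q) := by simp [sum_sub_distrib]
    have b : ∑ q ∈ W, ∑ v ∈ W, (if q = v then (1 : ℝ) else 0) = W.card := by
      rw [sum_congr rfl (g := fun _ => 1) fun q hq => by simp [hq]]; simp
    rw [a, sq, sq, sum_mul_sum, sum_mul_sum]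
    simp only [sum_sub_distrib, sum_add_distrib, b]
  rw [h2, h3] at h1
  nlinarith [sq_nonneg (2 * ∑ q ∈ W, x q - W.card)]

variable (G : SimpleGraph (Fin n))

noncomputable def a (u v : Fin n) : ℝ := ind (G.Adj u v)

lemma sum_a (u : Fin n) (f : Fin n → ℝ) : ∑ v, a G u v * f v = ∑ v ∈ G.neighborFinset u, f v := by
  rw [SimpleGraph.neighborFinset_eq_filter, sum_filter]
  exact sum_congr rfl fun v _ => by unfold a ind; split_ifs <;> simp

lemma deg (u : Fin n) : ∑ v, a G u v = G.degree u := by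
  simpa using sum_a G u fun _ => 1

lemma vert (gen : ∀ i j l, i ≠ j → i ≠ l → j ≠ l → o (P i) (P j) (P l) ≠ 0) (u : Fin n) :
    2 * ((n : ℝ) - 1 - G.degree u) * (G.degree u * (G.degree u - 2)) +
      G.degree u * ((G.degree u - 1) * (G.degree u - 3)) ≤
        4 * ∑ p, ∑ q, ∑ v, a G u v * s P p q u v := by
  set N := G.neighborFinset u with hN
  set d : ℝ := (G.degree u : ℝ) with hd
  set T : Fin n → ℝ := fun p => ∑ q ∈ N, ∑ v ∈ N, s P p q u v with hT
  have sn : ∀ p q u v, 0 ≤ s P p q u v := fun _ _ _ _ => ind_nonneg _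
  have h1 : ∑ p, (2 - a G u p) * T p ≤ ∑ p, ∑ q, ∑ v, a G u v * s P p q u v := by
    set Y : Fin n → Fin n → ℝ := fun p q => ∑ v ∈ N, s P p q u v with hY
    have Yn : ∀ p q, 0 ≤ Y p q := fun p q => sum_nonneg fun _ _ => sn _ _ _ _
    have Ys : ∀ p q, Y p q = Y q p := fun p q => sum_congr rfl fun v _ => s_symm P _ _ _ _
    have e1 : ∀ p, T p = ∑ q, a G u q * Y p q := fun p => (sum_a G u _).symm
    have e2 : ∑ p, (1 - a G u p) * T p = ∑ p, ∑ q, (1 - a G u q) * (a G u p * Y p q) := by
      simp only [e1, mul_sum]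
      rw [sum_comm]
      exact sum_congr rfl fun p _ => sum_congr rfl fun q _ => by rw [Ys]
    have e3 : ∑ p, (2 - a G u p) * T p = ∑ p, T p + ∑ p, (1 - a G u p) * T p := by
      rw [← sum_add_distrib]; exact sum_congr rfl fun p _ => by ring
    rw [e3, e2]
    simp only [e1, sum_a G u (fun v => s P _ _ u v), ← sum_add_distrib]
    refine sum_le_sum fun p _ => sum_le_sum fun q _ => ?_
    have k1 := ind_nonneg (G.Adj u q)
    have k2 := ind_le (G.Adj u q)
    have k3 := ind_le (G.Adj u p)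
    have k4 := Yn p q
    change a G u q * Y p q + (1 - a G u q) * (a G u p * Y p q) ≤ Y p q
    unfold a
    nlinarith [mul_nonneg (mul_nonneg (sub_nonneg.2 k2) (sub_nonneg.2 k3)) k4]
  have h2 : ∀ p, 2 * (1 - a G u p - if p = u then 1 else 0) * (d * (d - 2)) +
      a G u p * ((d - 1) * (d - 3)) ≤ 4 * ((2 - a G u p) * T p) := by
    intro p
    have Tn : 0 ≤ T p := sum_nonneg fun _ _ => sum_nonneg fun _ _ => sn _ _ _ _
    by_cases hp : p = u
    · subst hp
      have : a G p p = 0 := ind_neg G.irrefl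
      rw [this]; simp; linarith
    rw [if_neg hp]
    have hu : u ∉ N := by simp [hN]
    by_cases hA : G.Adj u p
    · have hm : p ∈ N := by simpa [hN] using hA
      have k := tri P gen hp (N.erase p) (by simp) (fun h => hu (mem_of_mem_erase h))
      have k2 : ∑ q ∈ N.erase p, ∑ v ∈ N.erase p, s P p q u v ≤ T p :=
        (sum_le_sum fun q _ => sum_le_sum_of_subset_of_nonneg (erase_subset _ _)
          fun _ _ _ => sn _ _ _ _).trans (sum_le_sum_of_subset_of_nonneg (erase_subset _ _)
            fun _ _ _ => sum_nonneg fun _ _ => sn _ _ _ _)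
      have k3 : ((N.erase p).card : ℝ) = d - 1 := by
        rw [card_erase_of_mem hm, Nat.cast_sub (card_pos.2 ⟨p, hm⟩)]; simp [hN, hd]
      rw [k3] at k
      have : a G u p = 1 := ind_pos hA
      rw [this]; nlinarith
    · have k := tri P gen hp N (by simpa [hN] using hA) hu
      have k3 : (N.card : ℝ) = d := by simp [hN, hd]
      rw [k3] at k
      have : a G u p = 0 := ind_neg hA
      rw [this]
      change _ ≤ 4 * T p at k
      nlinarith
  have h3 := sum_le_sum fun p (_ : p ∈ univ) => h2 p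
  simp only [sum_add_distrib, ← sum_mul, ← mul_sum, sum_sub_distrib, deg] at h3
  simp only [sum_const, card_univ, Fintype.card_fin, nsmul_eq_mul, mul_one, sum_ite_eq', mem_univ,
    if_true] at h3
  nlinarith

lemma small (f g : Fin n → ℝ) : ∃ η : ℝ, 0 < η ∧ ∀ u, f u ≠ 0 → η * |g u| < |f u| := by
  have : ∀ᶠ η in nhdsWithin (0 : ℝ) (Set.Ioi 0), ∀ u, f u ≠ 0 → η * |g u| < |f u| := by
    rw [Filter.eventually_all]
    intro u
    by_cases h : f u = 0
    · simp [h]
    · have c : Continuous fun η : ℝ => η * |g u| := by fun_prop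
      have := c.continuousAt (x := 0) |>.eventually_lt continuousAt_const
        (by simpa using h : (fun η : ℝ => η * |g u|) 0 < (fun _ => |f u|) 0)
      exact (this.filter_mono nhdsWithin_le_nhds).mono fun η hη _ => hη
  obtain ⟨η, h1, h2⟩ := (this.and self_mem_nhdsWithin).exists
  exact ⟨η, h2, h1⟩

lemma pair (hP : Function.Injective P)
    (gen : ∀ i j l, i ≠ j → i ≠ l → j ≠ l → o (P i) (P j) (P l) ≠ 0) (K : ℝ)
    (hK : ∀ α β γ : ℝ, (∀ i, α * (P i).1 + β * (P i).2 - γ ≠ 0) →
      ∑ u, ∑ v, a G u v * ind ((α * (P u).1 + β * (P u).2 - γ) * (α * (P v).1 + β * (P v).2 - γ) < 0) ≤ K)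
    {p q : Fin n} (hpq : p ≠ q) :
    ∑ u, ∑ v, a G u v * s P p q u v + G.degree p + G.degree q ≤ K := by
  set f : Fin n → ℝ := fun u => o (P p) (P q) (P u) with hf
  set g : Fin n → ℝ := fun u => ((P p).1 - (P q).1) * (2 * (P u).1 - (P p).1 - (P q).1) +
    ((P p).2 - (P q).2) * (2 * (P u).2 - (P p).2 - (P q).2) with hg
  have gp : 0 < g p := by
    have : (P p).1 - (P q).1 ≠ 0 ∨ (P p).2 - (P q).2 ≠ 0 := by
      by_contra h
      push Not at h
      exact hpq (hP (Prod.ext (by linarith [h.1]) (by linarith [h.2])))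
    have e : g p = ((P p).1 - (P q).1) ^ 2 + ((P p).2 - (P q).2) ^ 2 := by simp only [hg]; ring
    rw [e]
    rcases this with h | h <;> positivity
  have gq : g q = - g p := by simp only [hg]; ring
  have fp : f p = 0 := by simp [hf, o]
  have fq : f q = 0 := by simp only [hf, o]; ring
  obtain ⟨η, hη, hs⟩ := small f g
  have sg : ∀ e : ℝ, |e| = η → ∀ u, u ≠ p → u ≠ q → 0 < f u * (f u + e * g u) := by
    intro e he u h1 h2
    have k := hs u (gen _ _ _ hpq h1.symm h2.symm)
    have k2 : |e * g u| < |f u| := by rwa [abs_mul, he]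
    have k3 := sq_lt_sq.2 k2
    nlinarith [sq_nonneg (f u + e * g u)]
  have nz : ∀ e : ℝ, |e| = η → ∀ u, f u + e * g u ≠ 0 := by
    intro e he u h
    have e0 : e ≠ 0 := fun h => by rw [h, abs_zero] at he; exact hη.ne he
    by_cases h1 : u = p
    · rw [h1, fp, zero_add] at h; exact mul_ne_zero e0 gp.ne' h
    by_cases h2 : u = q
    · rw [h2, fq, gq, zero_add] at h; exact mul_ne_zero e0 (neg_ne_zero.2 gp.ne') h
    have := sg e he u h1 h2
    rw [h] at this; simp at this
  have cut : ∀ e : ℝ, |e| = η →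
      ∑ u, ∑ v, a G u v * ind ((f u + e * g u) * (f v + e * g v) < 0) ≤ K := by
    intro e he
    have aff : ∀ u, (-((P q).2 - (P p).2) + 2 * e * ((P p).1 - (P q).1)) * (P u).1 +
        (((P q).1 - (P p).1) + 2 * e * ((P p).2 - (P q).2)) * (P u).2 -
        (((P q).1 - (P p).1) * (P p).2 - ((P q).2 - (P p).2) * (P p).1 +
          e * ((P p).1 ^ 2 - (P q).1 ^ 2 + (P p).2 ^ 2 - (P q).2 ^ 2)) = f u + e * g u := by
      intro u; simp only [hf, hg, o]; ring
    have := hK _ _ _ fun i => by rw [aff]; exact nz e he i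
    simpa only [aff] using this
  have c1 := cut η (abs_of_pos hη)
  have c2 := cut (-η) (by rw [abs_neg, abs_of_pos hη])
  have one : ∀ x y z : ℝ, x ≠ 0 → 0 < y * z → 1 ≤ ind (x * y < 0) + ind (-x * z < 0) := by
    intro x y z hx hyz
    have n1 := ind_nonneg (x * y < 0)
    have n2 := ind_nonneg (-x * z < 0)
    by_cases h : x * y < 0
    · rw [ind_pos h]; linarith
    · have hy : y ≠ 0 := fun h => by simp [h] at hyz
      have h' : 0 < x * y := lt_of_le_of_ne (not_lt.1 h) (mul_ne_zero hx hy).symm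
      have : 0 < x * z := by
        by_contra k
        push Not at k
        nlinarith [mul_pos h' hyz, mul_nonneg (mul_self_nonneg y) (neg_nonneg.2 k)]
      rw [ind_pos (A := -x * z < 0) (by linarith)]; linarith
  have hpos := mul_pos hη gp
  have yz : ∀ v, v ≠ p → v ≠ q → 0 < (f v + η * g v) * (f v + -η * g v) := by
    intro v h1 h2
    have k := hs v (gen _ _ _ hpq h1.symm h2.symm)
    have k2 : |η * g v| < |f v| := by rwa [abs_mul, abs_of_pos hη]
    have k3 := sq_lt_sq.2 k2
    nlinarith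
  have key : ∀ u v, u ≠ v → 2 * s P p q u v + ((if u = p then 1 else 0) + (if u = q then 1 else 0) +
      (if v = p then 1 else 0) + (if v = q then 1 else 0)) ≤
      ind ((f u + η * g u) * (f v + η * g v) < 0) + ind ((f u + -η * g u) * (f v + -η * g v) < 0) := by
    intro u v huv
    have s0 : ∀ u v, f u = 0 ∨ f v = 0 → s P p q u v = 0 := by
      intro u v h
      refine ind_neg ?_
      change ¬ f u * f v < 0
      rcases h with h | h <;> simp [h]
    by_cases u1 : u = p
    · subst u1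
      rw [s0 _ _ (.inl fp), fp]
      by_cases v2 : v = q
      · subst v2
        rw [fq, gq, ind_pos (by nlinarith), ind_pos (by nlinarith)]
        simp [hpq, hpq.symm]
      · have := one (η * g u) _ _ hpos.ne' (yz v huv.symm v2)
        simp only [zero_add, neg_mul η] at this ⊢
        simp [hpq, huv.symm, v2]; simpa using this
    by_cases u2 : u = q
    · subst u2
      rw [s0 _ _ (.inl fq), fq]
      by_cases v1 : v = p
      · subst v1
        rw [fp, gq, ind_pos (by nlinarith), ind_pos (by nlinarith)]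
        simp [hpq, hpq.symm]
      · have := one (η * g u) _ _ (by rw [gq]; nlinarith) (yz v v1 huv.symm)
        simp only [zero_add, neg_mul η] at this ⊢
        simp [u1, huv.symm, v1]; simpa using this
    by_cases v1 : v = p
    · subst v1
      rw [s0 _ _ (.inr fp), fp, mul_comm (f u + η * g u), mul_comm (f u + -η * g u)]
      have := one (η * g v) _ _ hpos.ne' (yz u u1 u2)
      simp only [zero_add, neg_mul η] at this ⊢
      simp [hpq, u1, u2]; simpa using this
    by_cases v2 : v = q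
    · subst v2
      rw [s0 _ _ (.inr fq), fq, mul_comm (f u + η * g u), mul_comm (f u + -η * g u)]
      have := one (η * g v) _ _ (by rw [gq]; nlinarith) (yz u u1 u2)
      simp only [zero_add, neg_mul η] at this ⊢
      simp [v1, u1, u2]; simpa using this
    simp only [if_neg u1, if_neg u2, if_neg v1, if_neg v2, add_zero]
    by_cases h : f u * f v < 0
    · have w : ∀ e : ℝ, |e| = η → (f u + e * g u) * (f v + e * g v) < 0 := by
        intro e he
        have k := mul_pos (sg e he u u1 u2) (sg e he v v1 v2)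
        by_contra k2
        push Not at k2
        nlinarith [mul_nonneg (neg_nonneg.2 h.le) k2]
      rw [ind_pos (w η (abs_of_pos hη)), ind_pos (w (-η) (by rw [abs_neg, abs_of_pos hη]))]
      have := ind_le (f u * f v < 0)
      change 2 * ind (f u * f v < 0) ≤ _
      linarith
    · change 2 * ind (f u * f v < 0) ≤ _
      rw [ind_neg h]
      linarith [ind_nonneg ((f u + η * g u) * (f v + η * g v) < 0),
        ind_nonneg ((f u + -η * g u) * (f v + -η * g v) < 0)]
  have key2 : ∀ u v, a G u v * (2 * s P p q u v + ((if u = p then 1 else 0) + (if u = q then 1 else 0) +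
      (if v = p then 1 else 0) + (if v = q then 1 else 0))) ≤
      a G u v * (ind ((f u + η * g u) * (f v + η * g v) < 0) +
        ind ((f u + -η * g u) * (f v + -η * g v) < 0)) := by
    intro u v
    by_cases h : G.Adj u v
    · exact mul_le_mul_of_nonneg_left (key u v h.ne) (ind_nonneg _)
    · have : a G u v = 0 := ind_neg h
      simp [this]
  have tot := sum_le_sum fun u (_ : u ∈ univ) => sum_le_sum fun v (_ : v ∈ univ) => key2 u v
  have asym : ∀ u v, a G u v = a G v u := fun u v => by unfold a; rw [G.adj_comm]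
  have d1 : ∀ r, ∑ u, ∑ v, a G u v * (if u = r then 1 else 0) = G.degree r := by
    intro r
    simp only [← sum_mul, deg]; simp
  have d2 : ∀ r, ∑ u, ∑ v, a G u v * (if v = r then 1 else 0) = G.degree r := by
    intro r
    rw [sum_comm, ← d1 r]
    exact sum_congr rfl fun u _ => sum_congr rfl fun v _ => by rw [asym]
  have d3 : ∑ u, ∑ v, a G u v * (2 * s P p q u v) = 2 * ∑ u, ∑ v, a G u v * s P p q u v := by
    simp only [mul_sum]
    exact sum_congr rfl fun u _ => sum_congr rfl fun v _ => by ring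
  simp only [mul_add, sum_add_distrib, d1, d2, d3] at tot
  simp only [mul_add] at c1 c2
  linarith

lemma poly (N k d : ℕ) (hk : 0 < k) (hN : k ^ 2 ≤ N) (hd : d ≤ N) :
    (0 : ℝ) < ((d : ℝ) - 2 * k) ^ 2 * (2 * N - 4 * k - d) + (8 * N * (k + 1) + 6 * k - 8 * k ^ 3) := by
  by_cases h : 4 * k ≤ N
  · have h1 : (4 : ℝ) * k ≤ N := by exact_mod_cast h
    have h2 : (d : ℝ) ≤ N := by exact_mod_cast hd
    have h3 : (k : ℝ) ^ 2 ≤ N := by exact_mod_cast hN
    have h4 : (0 : ℝ) < k := by exact_mod_cast hk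
    have h5 := mul_nonneg (sq_nonneg ((d : ℝ) - 2 * k)) (show (0 : ℝ) ≤ 2 * N - 4 * k - d by linarith)
    nlinarith [mul_le_mul_of_nonneg_left h3 h4.le]
  · have k3 : k ≤ 3 := by nlinarith
    have : N < 12 := by omega
    interval_cases k <;> interval_cases N <;> simp at hN h <;> interval_cases d <;> norm_num

/-- For `n > k²`, more than `n k` edges force a line through no vertex that meets `k²` edges. -/
theorem result (n k : ℕ) (hk : 0 < k) (hn : k ^ 2 < n) (P : Fin n → ℝ × ℝ)
    (hP : Function.Injective P)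
    (gen : ∀ i j l, i ≠ j → i ≠ l → j ≠ l → ¬ Collinear ℝ {P i, P j, P l})
    (G : SimpleGraph (Fin n)) (hE : n * k < G.edgeSet.ncard) :
    ∃ α β γ : ℝ, (α, β) ≠ (0, 0) ∧ (∀ i, α * (P i).1 + β * (P i).2 ≠ γ) ∧
      k ^ 2 ≤ {e ∈ G.edgeSet | ∃ u v, e = s(u, v) ∧
        ∃ z ∈ segment ℝ (P u) (P v), α * z.1 + β * z.2 = γ}.ncard := by
  have gen' : ∀ i j l, i ≠ j → i ≠ l → j ≠ l → o (P i) (P j) (P l) ≠ 0 :=
    fun i j l h1 h2 h3 h => gen i j l h1 h2 h3 (col (hP.ne h1) h)
  by_contra hc
  push Not at hc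
  have hK : ∀ α β γ : ℝ, (∀ i, α * (P i).1 + β * (P i).2 - γ ≠ 0) →
      ∑ u, ∑ v, a G u v * ind ((α * (P u).1 + β * (P u).2 - γ) * (α * (P v).1 + β * (P v).2 - γ) < 0) ≤
        2 * ((k : ℝ) ^ 2 - 1) := by
    intro α β γ hz
    have k1 : (1 : ℝ) ≤ k ^ 2 := by exact_mod_cast Nat.one_le_pow _ _ hk
    by_cases h0 : (α, β) = (0, 0)
    · obtain ⟨rfl, rfl⟩ := Prod.mk.inj h0
      have : ∀ u v : Fin n, ind ((0 * (P u).1 + 0 * (P u).2 - γ) * (0 * (P v).1 + 0 * (P v).2 - γ) < 0) = 0 :=
        fun u v => ind_neg (by nlinarith [sq_nonneg γ])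
      simp only [this, mul_zero, sum_const_zero]; linarith
    obtain ⟨H, hH⟩ : ∃ H : SimpleGraph (Fin n), ∀ u v, H.Adj u v ↔ G.Adj u v ∧
        (α * (P u).1 + β * (P u).2 - γ) * (α * (P v).1 + β * (P v).2 - γ) < 0 := by
      refine ⟨G ⊓ SimpleGraph.fromRel fun u v =>
        (α * (P u).1 + β * (P u).2 - γ) * (α * (P v).1 + β * (P v).2 - γ) < 0, fun u v => ?_⟩
      rw [SimpleGraph.inf_adj, SimpleGraph.fromRel_adj]
      refine ⟨fun h => ⟨h.1, h.2.2.elim id fun k => by rwa [mul_comm]⟩,
        fun h => ⟨h.1, h.1.ne, .inl h.2⟩⟩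
    have e1 : ∀ u v, a G u v *
        ind ((α * (P u).1 + β * (P u).2 - γ) * (α * (P v).1 + β * (P v).2 - γ) < 0) = a H u v := by
      intro u v
      simp only [a, ind, hH]
      by_cases h1 : G.Adj u v <;> simp [h1]
    have e2 : ∑ u, (H.degree u : ℝ) = 2 * H.edgeFinset.card := by
      exact_mod_cast H.sum_degrees_eq_twice_card_edges
    have e3 := hc α β γ h0 fun i h => hz i (by linarith)
    have e4 : H.edgeSet.ncard ≤ {e ∈ G.edgeSet | ∃ u v, e = s(u, v) ∧
        ∃ z ∈ segment ℝ (P u) (P v), α * z.1 + β * z.2 = γ}.ncard := by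
      refine Set.ncard_le_ncard ?_ (Set.toFinite _)
      intro e he
      induction e using Sym2.ind with
      | _ u v =>
        obtain ⟨h1, h2⟩ := (hH u v).1 he
        refine ⟨h1, u, v, rfl, ?_⟩
        set x := α * (P u).1 + β * (P u).2 - γ with hx
        set y := α * (P v).1 + β * (P v).2 - γ with hy
        have hxy : x - y ≠ 0 := fun h => by
          have : x = y := by linarith
          rw [this] at h2; nlinarith [sq_nonneg y]
        have hsq : 0 < (x - y) ^ 2 := by positivity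
        refine ⟨(-y / (x - y)) • P u + (x / (x - y)) • P v, ⟨_, _, ?_, ?_, by field_simp; ring, rfl⟩, ?_⟩
        · rw [show -y / (x - y) = (-y * (x - y)) / (x - y) ^ 2 by field_simp]
          exact div_nonneg (by nlinarith [sq_nonneg y]) hsq.le
        · rw [show x / (x - y) = (x * (x - y)) / (x - y) ^ 2 by field_simp]
          exact div_nonneg (by nlinarith [sq_nonneg x]) hsq.le
        · simp only [Prod.fst_add, Prod.snd_add, Prod.smul_fst, Prod.smul_snd, smul_eq_mul]
          field_simp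
          rw [hx, hy]; ring
    have e5 : H.edgeSet.ncard = H.edgeFinset.card := by
      rw [← SimpleGraph.coe_edgeFinset, Set.ncard_coe_finset]
    have e6 : H.edgeFinset.card + 1 ≤ k ^ 2 := by omega
    have e7 : (H.edgeFinset.card : ℝ) + 1 ≤ k ^ 2 := by exact_mod_cast e6
    simp only [e1, deg]
    linarith
  obtain ⟨N, rfl⟩ : ∃ N, n = N + 1 := ⟨n - 1, by omega⟩
  set X : Fin (N + 1) → Fin (N + 1) → ℝ := fun p q => ∑ u, ∑ v, a G u v * s P p q u v with hX
  have h1 : ∀ p q, X p q + (1 - if p = q then 1 else 0) * (G.degree p + G.degree q) ≤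
      (1 - if p = q then 1 else 0) * (2 * ((k : ℝ) ^ 2 - 1)) := by
    intro p q
    by_cases h : p = q
    · subst h
      have : ∀ u v, s P p p u v = 0 := fun u v => ind_neg (by simp [o])
      simp [hX, this]
    · have := pair P G hP gen' _ hK h
      simp only [if_neg h, hX]; linarith
  have h2 := sum_le_sum fun p (_ : p ∈ univ) => sum_le_sum fun q (_ : q ∈ univ) => h1 p q
  set D : ℝ := ∑ u, (G.degree u : ℝ) with hD
  have h3 : ∑ p, ∑ q, X p q + 2 * N * D ≤ (N + 1) * N * (2 * ((k : ℝ) ^ 2 - 1)) := by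
    simp only [sub_mul, one_mul, ite_mul, zero_mul, sum_add_distrib, sum_sub_distrib, sum_ite_eq,
      mem_univ, if_true, sum_const, card_univ, Fintype.card_fin, nsmul_eq_mul, ← mul_sum, ← hD] at h2
    push_cast at h2
    linarith
  have h4 : ∑ p, ∑ q, X p q = ∑ u, ∑ p, ∑ q, ∑ v, a G u v * s P p q u v := by
    simp only [hX]
    rw [sum_comm (γ := Fin (N + 1))]
    exact (sum_comm.trans (sum_congr rfl fun p _ => sum_comm)).trans sum_comm
  have h5 : 2 * ((N : ℝ) + 1) * k ≤ D := by
    have e2 : D = 2 * G.edgeFinset.card := by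
      rw [hD]; exact_mod_cast G.sum_degrees_eq_twice_card_edges
    rw [← SimpleGraph.coe_edgeFinset, Set.ncard_coe_finset] at hE
    have : ((N : ℝ) + 1) * k ≤ G.edgeFinset.card := by exact_mod_cast hE.le
    linarith
  have h6 : ∀ u, (8 * N * k + 4 * N + 3 - 12 * k ^ 2 : ℝ) * (G.degree u - 2 * k) <
      4 * ∑ p, ∑ q, ∑ v, a G u v * s P p q u v + 8 * N * G.degree u - 8 * N * (k ^ 2 - 1) := by
    intro u
    have a1 := vert P G gen' u
    have a2 := poly N k (G.degree u) hk (by omega) (by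
      have := G.degree_lt_card_verts u
      simp at this; omega)
    push_cast at a1
    nlinarith
  have h7 := sum_lt_sum_of_nonempty univ_nonempty fun u (_ : u ∈ univ) => h6 u
  simp only [sum_add_distrib, sum_sub_distrib, ← mul_sum, ← hD, sum_const, card_univ,
    Fintype.card_fin, nsmul_eq_mul] at h7
  rw [← h4] at h7
  push_cast at h7
  have h8 : (0 : ℝ) ≤ 8 * N * k + 4 * N + 3 - 12 * k ^ 2 := by
    have b1 : (k : ℝ) ^ 2 ≤ N := by exact_mod_cast Nat.lt_succ_iff.1 hn
    have b2 : (1 : ℝ) ≤ k := by exact_mod_cast hk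
    nlinarith
  nlinarith [mul_nonneg h8 (sub_nonneg.2 h5)]

end Pool.Agent.Results.MP_62448f_co.LargeN
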